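import Pool.Agent.W754.NB.Defs

set_option autoImplicit false

open Set Filter Topology

namespace Pool.Agent.W754.NB

/-- The real number with the base `4` digits `h t ∈ {0, 1}`. -/
noncomputable def enc4 (h : ℕ → Bool) : ℝ := ∑' t : ℕ, if h t = true then (1 / 4 : ℝ) ^ (t + 1) else 0

lemma summable_geo4 : Summable fun t : ℕ => (1 / 4 : ℝ) ^ (t + 1) := by
  have := (summable_geometric_of_lt_one (r := (1 / 4 : ℝ)) (by norm_num) (by norm_num)).mul_right (1 / 4)
  simpa [pow_succ] using this

lemma tsum_geo4 : ∑' t : ℕ, (1 / 4 : ℝ) ^ (t + 1) = 1 / 3 := by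
  simp_rw [pow_succ]
  rw [tsum_mul_right, tsum_geometric_of_lt_one (by norm_num) (by norm_num)]; norm_num

lemma summable_enc4 (h : ℕ → Bool) :
    Summable fun t : ℕ => if h t = true then (1 / 4 : ℝ) ^ (t + 1) else 0 :=
  Summable.of_nonneg_of_le (fun t => by split_ifs <;> positivity)
    (fun t => by split_ifs <;> [exact le_refl _; positivity]) summable_geo4

lemma enc4_nonneg (h : ℕ → Bool) : 0 ≤ enc4 h :=
  tsum_nonneg fun t => by split_ifs <;> positivity

lemma enc4_le (h : ℕ → Bool) : enc4 h ≤ 1 / 3 := by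
  rw [← tsum_geo4]
  exact (summable_enc4 h).tsum_le_tsum (fun t => by split_ifs <;> [exact le_refl _; positivity])
    summable_geo4

/-- the first `m` digits -/
def pre (h : ℕ → Bool) (m : ℕ) : ℕ :=
  Nat.rec 0 (fun t acc => 4 * acc + (if h t = true then 1 else 0)) m

lemma pre_succ (h : ℕ → Bool) (m : ℕ) :
    pre h (m + 1) = 4 * pre h m + (if h m = true then 1 else 0) := rfl

lemma pre_eq (h : ℕ → Bool) (m : ℕ) : (pre h m : ℝ) / 4 ^ m =
    ∑ t ∈ Finset.range m, if h t = true then (1 / 4 : ℝ) ^ (t + 1) else 0 := by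
  induction m with
  | zero => simp [pre]
  | succ m ih =>
    rw [Finset.sum_range_succ, ← ih, pre_succ]
    push_cast
    rw [pow_succ]
    split_ifs
    · rw [one_div, inv_pow, pow_succ]; field_simp
    · field_simp; norm_num

lemma enc4_pre (h : ℕ → Bool) (m : ℕ) :
    (pre h m : ℝ) ≤ enc4 h * 4 ^ m ∧ enc4 h * 4 ^ m ≤ (pre h m : ℝ) + 1 / 3 := by
  have h1 : enc4 h = (∑ t ∈ Finset.range m, if h t = true then (1 / 4 : ℝ) ^ (t + 1) else 0) +
      ∑' t : ℕ, if h (t + m) = true then (1 / 4 : ℝ) ^ (t + m + 1) else 0 :=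
    ((summable_enc4 h).sum_add_tsum_nat_add m).symm
  have h2 : ∀ t : ℕ, (if h (t + m) = true then (1 / 4 : ℝ) ^ (t + m + 1) else 0) =
      (1 / 4 ^ m) * (if h (t + m) = true then (1 / 4 : ℝ) ^ (t + 1) else 0) := by
    intro t
    split_ifs
    · have : t + m + 1 = m + (t + 1) := by ring
      rw [this, pow_add, one_div, one_div, inv_pow]
    · simp
  simp_rw [h2] at h1
  rw [tsum_mul_left, ← pre_eq] at h1
  have h3 : 0 ≤ enc4 (fun t => h (t + m)) := enc4_nonneg _
  have h4 := enc4_le (fun t => h (t + m))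
  change enc4 h = (pre h m : ℝ) / 4 ^ m + 1 / 4 ^ m * enc4 (fun t => h (t + m)) at h1
  have h5 : enc4 h * 4 ^ m = (pre h m : ℝ) + enc4 (fun t => h (t + m)) := by
    rw [h1]; field_simp
  rw [h5]
  constructor <;> linarith

lemma pre_le (h : ℕ → Bool) (m : ℕ) : pre h m ≤ 4 ^ m := by
  induction m with
  | zero => simp [pre]
  | succ m ih =>
    rw [pre_succ, pow_succ]
    have h1 : pre h m * 3 + 1 ≤ 4 ^ m * 3 := by
      have : pre h m < 4 ^ m := by
        clear ih
        induction m with
        | zero => simp [pre]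
        | succ m ih =>
          rw [pre_succ, pow_succ]
          split_ifs <;> omega
      omega
    split_ifs <;> omega

lemma pre_computable (h : ℕ → Bool) (hh : Computable h) : Computable (pre h) := by
  refine Computable.nat_rec (f := fun p : ℕ => p) (g := fun _ => 0)
    (h := fun p q => 4 * q.2 + (if h q.1 = true then 1 else 0)) Computable.id
    (Computable.const 0) ?_
  have e1 : Computable (fun x : ℕ × ℕ × ℕ => h x.2.1) :=
    hh.comp (Computable.fst.comp Computable.snd)
  have e2 : Computable (fun x : ℕ × ℕ × ℕ => cond (h x.2.1) 1 0) :=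
    Computable.cond e1 (Computable.const 1) (Computable.const 0)
  have e3 : Computable (fun x : ℕ × ℕ × ℕ => 4 * x.2.2) :=
    (Primrec.nat_mul.comp (Primrec.const 4) (Primrec.snd.comp Primrec.snd)).to_comp
  refine (Primrec.nat_add.to_comp.comp e3 e2).of_eq fun x => ?_
  cases hx : h x.2.1 <;> simp [hx]

lemma primrec_pow4 : Primrec (fun n : ℕ => 4 ^ n) := by
  have : Primrec (fun n : ℕ => n.rec (motive := fun _ => ℕ) 1 (fun _ r => 4 * r)) := by
    refine (Primrec.nat_rec₁ 1 (f := fun _ r => 4 * r) ?_)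
    exact Primrec.nat_mul.comp (Primrec.const 4) Primrec.snd
  refine this.of_eq fun n => ?_
  induction n with
  | zero => rfl
  | succ n ih =>
    rw [pow_succ, ← ih, mul_comm]

/-- `1 + enc4 h` is a computable real number. -/
lemma enc4_computableReal (h : ℕ → Bool) (hh : Computable h) : ComputableReal (1 + enc4 h) := by
  refine ⟨fun m => (4 ^ m + pre h m, 0, 4 ^ m - 1), ?_, ?_⟩
  · refine Computable.pair ?_ (Computable.pair (Computable.const 0) ?_)
    · exact Primrec.nat_add.to_comp.comp primrec_pow4.to_comp (pre_computable h hh)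
    · exact (Primrec.nat_sub.comp primrec_pow4 (Primrec.const 1)).to_comp
  · intro m
    have h4 : ((4 ^ m - 1 : ℕ) : ℝ) + 1 = 4 ^ m := by
      have : 1 ≤ 4 ^ m := Nat.one_le_pow _ _ (by norm_num)
      push_cast [Nat.cast_sub this]; ring
    have hp := enc4_pre h m
    have h4p : (0 : ℝ) < 4 ^ m := by positivity
    simp only [val]
    rw [h4]
    push_cast
    have e : 1 + enc4 h - ((4 ^ m + (pre h m : ℝ) - 0) / 4 ^ m) =
        (enc4 h * 4 ^ m - pre h m) / 4 ^ m := by
      field_simp; ring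
    rw [e, abs_of_nonneg (div_nonneg (by linarith) h4p.le)]
    have h24 : (2 : ℝ) ^ m ≤ 4 ^ m := pow_le_pow_left₀ (by norm_num) (by norm_num) m
    calc (enc4 h * 4 ^ m - pre h m) / 4 ^ m ≤ 1 / 4 ^ m := by
          apply div_le_div_of_nonneg_right _ h4p.le
          linarith
      _ ≤ 1 / 2 ^ m := one_div_le_one_div_of_le (by positivity) h24

end Pool.Agent.W754.NB
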