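import Pool.Agent.W754.NB.Defs

set_option autoImplicit false

open Set Filter Topology

namespace Pool.Agent.W754.NB

open scoped RealInnerProductSpace

lemma accel_zero (m : Fin 3 → ℝ) (q : Fin 3 → R3) : accel m q 0 =
    (m 1 / ‖q 1 - q 0‖ ^ 3) • (q 1 - q 0) + (m 2 / ‖q 2 - q 0‖ ^ 3) • (q 2 - q 0) := by
  unfold accel
  rw [show (Finset.univ.erase (0 : Fin 3)) = {1, 2} by decide, Finset.sum_pair (by decide)]

lemma accel_one (m : Fin 3 → ℝ) (q : Fin 3 → R3) : accel m q 1 =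
    (m 0 / ‖q 0 - q 1‖ ^ 3) • (q 0 - q 1) + (m 2 / ‖q 2 - q 1‖ ^ 3) • (q 2 - q 1) := by
  unfold accel
  rw [show (Finset.univ.erase (1 : Fin 3)) = {0, 2} by decide, Finset.sum_pair (by decide)]

lemma accel_two (m : Fin 3 → ℝ) (q : Fin 3 → R3) : accel m q 2 =
    (m 0 / ‖q 0 - q 2‖ ^ 3) • (q 0 - q 2) + (m 1 / ‖q 1 - q 2‖ ^ 3) • (q 1 - q 2) := by
  unfold accel
  rw [show (Finset.univ.erase (2 : Fin 3)) = {0, 1} by decide, Finset.sum_pair (by decide)]

lemma hasDerivWithinAt_norm_inv {f : ℝ → R3} {f' : R3} {s : Set ℝ} {t : ℝ}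
    (h : HasDerivWithinAt f f' s t) (h0 : f t ≠ 0) :
    HasDerivWithinAt (fun u => ‖f u‖⁻¹) (-(⟪f t, f'⟫ / ‖f t‖ ^ 3)) s t := by
  have hn : 0 < ‖f t‖ := norm_pos_iff.2 h0
  have h1 := h.norm_sq
  have h2 := h1.sqrt (by positivity)
  have h3 := h2.inv (by rw [Real.sqrt_sq (norm_nonneg _)]; exact hn.ne')
  have e : (fun u => ‖f u‖⁻¹) = fun u => (√(‖f u‖ ^ 2))⁻¹ := by
    funext u; rw [Real.sqrt_sq (norm_nonneg _)]
  rw [e]
  refine h3.congr_deriv ?_
  rw [Real.sqrt_sq (norm_nonneg _)]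
  field_simp

/-- the part of the energy not involving the mass of the middle body -/
noncomputable def enA (x : Phase 3) : ℝ :=
  (‖x.2 0‖ ^ 2 + ‖x.2 2‖ ^ 2) / 2 - ‖x.1 0 - x.1 2‖⁻¹

/-- the coefficient of the mass of the middle body in the energy -/
noncomputable def enB (x : Phase 3) : ℝ :=
  ‖x.2 1‖ ^ 2 / 2 - ‖x.1 0 - x.1 1‖⁻¹ - ‖x.1 1 - x.1 2‖⁻¹

lemma const_of_deriv_zero {f : ℝ → ℝ} {T : ℝ}
    (h : ∀ t ∈ Icc 0 T, HasDerivWithinAt f 0 (Icc 0 T) t) : ∀ t ∈ Icc 0 T, f t = f 0 := by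
  intro t ht
  rcases eq_or_lt_of_le (ht.1.trans ht.2) with h0 | h0
  · have : t = 0 := le_antisymm (by rw [h0]; exact ht.2) ht.1
    rw [this]
  · exact constant_of_derivWithin_zero (fun s hs => (h s hs).differentiableWithinAt)
      (fun s hs => (h s ⟨hs.1, hs.2.le⟩).derivWithin
        (uniqueDiffOn_Icc h0 s ⟨hs.1, hs.2.le⟩)) t ht

/-- conservation of energy -/
theorem energy_const {μ : ℝ} {q v : ℝ → Fin 3 → R3} {T : ℝ} (hT : 0 ≤ T)
    (h : IsSolution ![1, μ, 1] q v T) :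
    enA (q T, v T) + μ * enB (q T, v T) = enA (q 0, v 0) + μ * enB (q 0, v 0) := by
  have key := const_of_deriv_zero (T := T)
    (f := fun t => enA (q t, v t) + μ * enB (q t, v t)) ?_ T ⟨hT, le_refl _⟩
  · exact key
  intro t ht
  have hq := h.dq t ht
  have hv := h.dv t ht
  have hn := h.noncoll t ht
  have d01 := hasDerivWithinAt_norm_inv ((hq 0).sub (hq 1)) (sub_ne_zero.2 (hn 0 1 (by decide)))
  have d12 := hasDerivWithinAt_norm_inv ((hq 1).sub (hq 2)) (sub_ne_zero.2 (hn 1 2 (by decide)))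
  have d02 := hasDerivWithinAt_norm_inv ((hq 0).sub (hq 2)) (sub_ne_zero.2 (hn 0 2 (by decide)))
  have v0 := (hv 0).norm_sq
  have v1 := (hv 1).norm_sq
  have v2 := (hv 2).norm_sq
  have hA := ((v0.add v2).div_const 2).sub d02
  have hB := (((v1.div_const 2).sub d01).sub d12).const_mul μ
  have hAB := hA.add hB
  refine hAB.congr_deriv ?_
  simp only [accel_zero, accel_one, accel_two, Pi.sub_apply]
  simp only [Matrix.cons_val_zero, Matrix.cons_val_one, Matrix.cons_val]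
  rw [norm_sub_rev (q t 1) (q t 0), norm_sub_rev (q t 2) (q t 0), norm_sub_rev (q t 2) (q t 1)]
  have e10 : q t 1 - q t 0 = -(q t 0 - q t 1) := by abel
  have e20 : q t 2 - q t 0 = -(q t 0 - q t 2) := by abel
  have e21 : q t 2 - q t 1 = -(q t 1 - q t 2) := by abel
  rw [e10, e20, e21]
  simp only [inner_add_right, inner_neg_right, inner_smul_right, inner_sub_right, smul_neg,
    inner_sub_left]
  rw [real_inner_comm (q t 0) (v t 0), real_inner_comm (q t 1) (v t 0),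
    real_inner_comm (q t 2) (v t 0), real_inner_comm (q t 0) (v t 1),
    real_inner_comm (q t 1) (v t 1), real_inner_comm (q t 2) (v t 1),
    real_inner_comm (q t 0) (v t 2), real_inner_comm (q t 1) (v t 2),
    real_inner_comm (q t 2) (v t 2)]
  ring

/-- the third component of the centre of mass is constant if the total momentum vanishes -/
theorem centre_const {μ : ℝ} {q v : ℝ → Fin 3 → R3} {T : ℝ} (hT : 0 ≤ T)
    (h : IsSolution ![1, μ, 1] q v T) (h0 : v 0 0 2 + μ * v 0 1 2 + v 0 2 2 = 0) :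
    q T 0 2 + μ * q T 1 2 + q T 2 2 = q 0 0 2 + μ * q 0 1 2 + q 0 2 2 := by
  have coord : ∀ {f : ℝ → R3} {f' : R3} {s : Set ℝ} {t : ℝ}, HasDerivWithinAt f f' s t →
      HasDerivWithinAt (fun u => f u 2) (f' 2) s t := by
    intro f f' s t hf
    exact ((EuclideanSpace.proj (2 : Fin 3) : R3 →L[ℝ] ℝ).hasFDerivAt).comp_hasDerivWithinAt t hf
  have hP : ∀ t ∈ Icc 0 T, v t 0 2 + μ * v t 1 2 + v t 2 2 = 0 := by
    intro t ht
    rw [← h0]
    refine const_of_deriv_zero (T := T) (f := fun t => v t 0 2 + μ * v t 1 2 + v t 2 2) ?_ t ht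
    intro t ht
    have hv := h.dv t ht
    have := ((coord (hv 0)).add ((coord (hv 1)).const_mul μ)).add (coord (hv 2))
    refine this.congr_deriv ?_
    simp only [accel_zero, accel_one, accel_two]
    simp only [Matrix.cons_val_zero, Matrix.cons_val_one, Matrix.cons_val]
    rw [norm_sub_rev (q t 1) (q t 0), norm_sub_rev (q t 2) (q t 0), norm_sub_rev (q t 2) (q t 1)]
    simp only [PiLp.add_apply, PiLp.smul_apply, PiLp.sub_apply, smul_eq_mul]
    ring
  refine const_of_deriv_zero (T := T) (f := fun t => q t 0 2 + μ * q t 1 2 + q t 2 2) ?_ T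
    ⟨hT, le_refl _⟩
  intro t ht
  have hq := h.dq t ht
  have := ((coord (hq 0)).add ((coord (hq 1)).const_mul μ)).add (coord (hq 2))
  refine this.congr_deriv ?_
  exact hP t ht

end Pool.Agent.W754.NB
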