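import Pool.Agent.W754.NB.Boxes
import Pool.Agent.W754.NB.Digits
import Pool.Agent.W754.NB.Energy

set_option autoImplicit false

open Set Filter Topology

namespace Pool.Agent.W754.NB

/-- the initial point with the number `c` -/
def start (c : ℕ) : List Name :=
  [(0, 1, 0), (0, 0, 0), (c, 0, 0), (0, 0, 0), (0, 0, 0), (c, 0, 0), (1, 0, 0), (0, 0, 0), (c, 0, 0),
    (0, 3, 0), (0, 0, 0), (0, 0, 0), (0, 0, 0), (0, 0, 0), (0, 0, 0), (3, 0, 0), (0, 0, 0), (0, 0, 0)]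

lemma val_nat (b : ℕ) : val (b, 0, 0) = b := by simp [val]

lemma val_neg (b : ℕ) : val (0, b, 0) = -(b : ℝ) := by simp [val]

lemma norm_sq_three (x : R3) : ‖x‖ ^ 2 = x 0 ^ 2 + x 1 ^ 2 + x 2 ^ 2 := by
  rw [EuclideanSpace.norm_sq_eq, Fin.sum_univ_three]
  simp

lemma toLp_three (f : Fin 3 → ℝ) (x : R3) (h0 : f 0 = x 0) (h1 : f 1 = x 1) (h2 : f 2 = x 2) :
    WithLp.toLp 2 f = x := by
  ext i
  fin_cases i
  · exact h0
  · exact h1
  · exact h2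

lemma start_q (c : ℕ) : (point 3 (start c)).1 0 = !₂[-1, 0, (c : ℝ)] ∧
    (point 3 (start c)).1 1 = !₂[0, 0, (c : ℝ)] ∧ (point 3 (start c)).1 2 = !₂[1, 0, (c : ℝ)] := by
  have h0 : val (0, 0, 0) = 0 := by simp [val]
  have h1 : val (0, 1, 0) = -1 := by simp [val]
  have h2 : val (1, 0, 0) = 1 := by simp [val]
  refine ⟨toLp_three _ _ ?_ ?_ ?_, toLp_three _ _ ?_ ?_ ?_, toLp_three _ _ ?_ ?_ ?_⟩
  · exact h1
  · exact h0
  · exact val_nat c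
  · exact h0
  · exact h0
  · exact val_nat c
  · exact h2
  · exact h0
  · exact val_nat c

lemma start_v (c : ℕ) : (point 3 (start c)).2 0 = !₂[-3, 0, 0] ∧
    (point 3 (start c)).2 1 = 0 ∧ (point 3 (start c)).2 2 = !₂[3, 0, 0] := by
  have h0 : val (0, 0, 0) = 0 := by simp [val]
  have h1 : val (0, 3, 0) = -3 := by simp [val]
  have h2 : val (3, 0, 0) = 3 := by simp [val]
  refine ⟨toLp_three _ _ ?_ ?_ ?_, toLp_three _ _ ?_ ?_ ?_, toLp_three _ _ ?_ ?_ ?_⟩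
  · exact h1
  · exact h0
  · exact h0
  · exact h0
  · exact h0
  · exact h0
  · exact h2
  · exact h0
  · exact h0

lemma norm_ge_of_coord {x : R3} {c : ℝ} (h : c ≤ |x 0|) : c ≤ ‖x‖ := by
  refine h.trans ?_
  have := PiLp.norm_apply_le x 0
  simpa using this

lemma start_energy (c : ℕ) (μ : ℝ) :
    enA (point 3 (start c)) + μ * enB (point 3 (start c)) = 17 / 2 - 2 * μ := by
  obtain ⟨q0, q1, q2⟩ := start_q c
  obtain ⟨v0, v1, v2⟩ := start_v c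
  unfold enA enB
  rw [q0, q1, q2, v0, v1, v2, norm_sq_three, norm_sq_three, norm_sq_three]
  have n02 : ‖(!₂[-1, 0, (c : ℝ)] : R3) - !₂[1, 0, (c : ℝ)]‖ = 2 := by
    have : ‖(!₂[-1, 0, (c : ℝ)] : R3) - !₂[1, 0, (c : ℝ)]‖ ^ 2 = 2 ^ 2 := by
      rw [norm_sq_three]; simp; norm_num
    exact (pow_left_inj₀ (norm_nonneg _) (by norm_num) (by norm_num)).1 this
  have n01 : ‖(!₂[-1, 0, (c : ℝ)] : R3) - !₂[0, 0, (c : ℝ)]‖ = 1 := by
    have : ‖(!₂[-1, 0, (c : ℝ)] : R3) - !₂[0, 0, (c : ℝ)]‖ ^ 2 = 1 ^ 2 := by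
      rw [norm_sq_three]; simp
    exact (pow_left_inj₀ (norm_nonneg _) (by norm_num) (by norm_num)).1 this
  have n12 : ‖(!₂[0, 0, (c : ℝ)] : R3) - !₂[1, 0, (c : ℝ)]‖ = 1 := by
    have : ‖(!₂[0, 0, (c : ℝ)] : R3) - !₂[1, 0, (c : ℝ)]‖ ^ 2 = 1 ^ 2 := by
      rw [norm_sq_three]; simp
    exact (pow_left_inj₀ (norm_nonneg _) (by norm_num) (by norm_num)).1 this
  rw [n02, n01, n12]
  simp
  ring

set_option maxHeartbeats 1000000 in
/-- the energy of the points in the test box -/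
lemma box_energy (k N a : ℕ) (hN : 4 ≤ N) (ha : a ≤ 192 * N) (x : Phase 3)
    (hx : x ∈ box 3 (low k N a, up k N a)) (μ : ℝ) (hμ1 : 1 ≤ μ) (hμ2 : μ ≤ 4 / 3) :
    enA x + μ * enB x ≤ ((a : ℝ) ^ 2 + 4 * a + 8) / (64 * N) ^ 2 ∧
      (a : ℝ) ^ 2 / (64 * N) ^ 2 - 6 / (100 * N) ≤ enA x + μ * enB x := by
  rw [mem_box_iff k N a (by omega)] at hx
  obtain ⟨⟨⟨hx1, hx2⟩, -, -⟩, ⟨⟨hx3, hx4⟩, -, -⟩, ⟨⟨hx5, hx6⟩, -, -⟩,
    ⟨⟨v1, v2⟩, ⟨v3, v4⟩, v5, v6⟩, ⟨⟨v7, v8⟩, ⟨v9, v10⟩, v11, v12⟩, ⟨⟨v13, v14⟩, ⟨v15, v16⟩, v17, v18⟩⟩ := hx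
  have hNr : (4 : ℝ) ≤ N := by exact_mod_cast hN
  have har : (a : ℝ) ≤ 192 * N := by exact_mod_cast ha
  have ha0 : (0 : ℝ) ≤ a := Nat.cast_nonneg a
  set D : ℝ := 64 * N with hD
  have hD0 : 0 < D := by positivity
  set δ : ℝ := 1 / D with hδ
  have hδ0 : 0 < δ := by positivity
  -- distances
  have d02 : 200 * (N : ℝ) ≤ ‖x.1 0 - x.1 2‖ := by
    apply norm_ge_of_coord
    rw [PiLp.sub_apply, abs_sub_comm]
    exact le_trans (by linarith) (le_abs_self _)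
  have d01 : 50 * (N : ℝ) ≤ ‖x.1 0 - x.1 1‖ := by
    apply norm_ge_of_coord
    rw [PiLp.sub_apply, abs_sub_comm]
    exact le_trans (by linarith) (le_abs_self _)
  have d12 : 50 * (N : ℝ) ≤ ‖x.1 1 - x.1 2‖ := by
    apply norm_ge_of_coord
    rw [PiLp.sub_apply, abs_sub_comm]
    exact le_trans (by linarith) (le_abs_self _)
  have i02 : ‖x.1 0 - x.1 2‖⁻¹ ≤ 1 / (200 * N) := by
    rw [one_div]; exact inv_anti₀ (by positivity) d02
  have i01 : ‖x.1 0 - x.1 1‖⁻¹ ≤ 1 / (50 * N) := by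
    rw [one_div]; exact inv_anti₀ (by positivity) d01
  have i12 : ‖x.1 1 - x.1 2‖⁻¹ ≤ 1 / (50 * N) := by
    rw [one_div]; exact inv_anti₀ (by positivity) d12
  have j02 : 0 ≤ ‖x.1 0 - x.1 2‖⁻¹ := by positivity
  have j01 : 0 ≤ ‖x.1 0 - x.1 1‖⁻¹ := by positivity
  have j12 : 0 ≤ ‖x.1 1 - x.1 2‖⁻¹ := by positivity
  -- velocities
  have sq : ∀ y : ℝ, -δ < y → y < δ → y ^ 2 ≤ δ ^ 2 := by
    intro y h1 h2
    exact sq_le_sq' h1.le h2.le
  have s3 := sq _ v3 v4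
  have s5 := sq _ v5 v6
  have s7 := sq _ v7 v8
  have s9 := sq _ v9 v10
  have s11 := sq _ v11 v12
  have s15 := sq _ v15 v16
  have s17 := sq _ v17 v18
  have haD : 0 ≤ (a : ℝ) / D := by positivity
  have u1 : (x.2 0 0) ^ 2 ≤ (((a : ℝ) + 2) / D) ^ 2 := by
    rw [sq_le_sq, abs_of_neg (by linarith), abs_of_nonneg (by positivity)]; linarith
  have u2 : ((a : ℝ) / D) ^ 2 ≤ (x.2 0 0) ^ 2 := by
    rw [sq_le_sq, abs_of_neg (a := x.2 0 0) (by linarith), abs_of_nonneg (by positivity)]; linarith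
  have u3 : (x.2 2 0) ^ 2 ≤ (((a : ℝ) + 2) / D) ^ 2 := by
    rw [sq_le_sq, abs_of_nonneg (a := x.2 2 0) (by linarith), abs_of_nonneg (by positivity)]; linarith
  have u4 : ((a : ℝ) / D) ^ 2 ≤ (x.2 2 0) ^ 2 := by
    rw [sq_le_sq, abs_of_nonneg (a := x.2 2 0) (by linarith), abs_of_nonneg (by positivity)]; linarith
  have hv0 := norm_sq_three (x.2 0)
  have hv1 := norm_sq_three (x.2 1)
  have hv2 := norm_sq_three (x.2 2)
  have q1 := sq_nonneg (x.2 0 1)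
  have q2 := sq_nonneg (x.2 0 2)
  have q3 := sq_nonneg (x.2 2 1)
  have q4 := sq_nonneg (x.2 2 2)
  have q5 : 0 ≤ ‖x.2 1‖ ^ 2 := by positivity
  have hAle : enA x ≤ (((a : ℝ) + 2) / D) ^ 2 + 2 * δ ^ 2 := by
    unfold enA; rw [hv0, hv2]; linarith
  have hAge : ((a : ℝ) / D) ^ 2 - 1 / (200 * N) ≤ enA x := by
    unfold enA; rw [hv0, hv2]; linarith
  have hBle : enB x ≤ 3 / 2 * δ ^ 2 := by
    unfold enB; rw [hv1]; linarith
  have hBge : -(2 / (50 * (N : ℝ))) ≤ enB x := by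
    unfold enB
    have : 2 / (50 * (N : ℝ)) = 1 / (50 * N) + 1 / (50 * N) := by ring
    rw [this]; linarith
  have hδ2 : 0 ≤ δ ^ 2 := by positivity
  constructor
  · have h1 : μ * enB x ≤ 2 * δ ^ 2 := by
      calc μ * enB x ≤ μ * (3 / 2 * δ ^ 2) := mul_le_mul_of_nonneg_left hBle (by linarith)
        _ ≤ 4 / 3 * (3 / 2 * δ ^ 2) := mul_le_mul_of_nonneg_right hμ2 (by positivity)
        _ = 2 * δ ^ 2 := by ring
    have h2 : (((a : ℝ) + 2) / D) ^ 2 + 2 * δ ^ 2 + 2 * δ ^ 2 =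
        ((a : ℝ) ^ 2 + 4 * a + 8) / D ^ 2 := by
      rw [hδ]; field_simp; ring
    linarith
  · have h1 : -(4 / 3 * (2 / (50 * (N : ℝ)))) ≤ μ * enB x := by
      have hp : 0 ≤ 2 / (50 * (N : ℝ)) := by positivity
      calc -(4 / 3 * (2 / (50 * (N : ℝ)))) ≤ -(μ * (2 / (50 * (N : ℝ)))) := by
            have := mul_le_mul_of_nonneg_right hμ2 hp
            linarith
        _ = μ * (-(2 / (50 * (N : ℝ)))) := by ring
        _ ≤ μ * enB x := mul_le_mul_of_nonneg_left hBge (by linarith)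
    have h2 : 1 / (200 * (N : ℝ)) + 4 / 3 * (2 / (50 * (N : ℝ))) ≤ 6 / (100 * N) := by
      have : 1 / (200 * (N : ℝ)) + 4 / 3 * (2 / (50 * (N : ℝ))) = (1 / 200 + 8 / 150) / N := by
        field_simp; norm_num
      rw [this, show 6 / (100 * (N : ℝ)) = (6 / 100) / N by field_simp]
      apply div_le_div_of_nonneg_right _ (by positivity)
      norm_num
    have h3 : ((a : ℝ) / D) ^ 2 = (a : ℝ) ^ 2 / D ^ 2 := by ring
    rw [h3] at hAge
    linarith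

/-- the arithmetic of the test -/
lemma test_arith (h : ℕ → Bool) (i s a : ℕ) (hc : Cond (4 ^ (i + 1)) s a)
    (h1 : 17 / 2 - 2 * (1 + enc4 h) ≤ ((a : ℝ) ^ 2 + 4 * a + 8) / (64 * (4 ^ (i + 1) : ℕ)) ^ 2)
    (h2 : (a : ℝ) ^ 2 / (64 * (4 ^ (i + 1) : ℕ)) ^ 2 - 6 / (100 * (4 ^ (i + 1) : ℕ)) ≤
      17 / 2 - 2 * (1 + enc4 h)) : h i = true := by
  obtain ⟨c1, c2, c3, c4, c5⟩ := hc
  have hN4 : 4 ≤ 4 ^ (i + 1) := by
    calc 4 = 4 ^ 1 := by norm_num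
      _ ≤ 4 ^ (i + 1) := Nat.pow_le_pow_right (by norm_num) (by omega)
  obtain ⟨p1, p2⟩ := enc4_pre h (i + 1)
  have hNc : ((4 ^ (i + 1) : ℕ) : ℝ) = 4 ^ (i + 1) := by push_cast; ring
  rw [← hNc] at p1 p2
  set N : ℕ := 4 ^ (i + 1) with hN
  set p : ℕ := pre h (i + 1) with hp
  set M : ℝ := enc4 h with hM
  have hNr : (4 : ℝ) ≤ N := by exact_mod_cast hN4
  have d1 : (40960 : ℝ) * N * s + 5 * (a * a) ≤ 133120 * (N * N) + 8192 * N := by exact_mod_cast c1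
  have d2 : (133120 : ℝ) * (N * N) ≤ 40960 * N * s + 24576 * N + 5 * (a * a) := by
    exact_mod_cast c2
  have d5 : (a : ℝ) ≤ 192 * N := by exact_mod_cast c5
  have hD : (0 : ℝ) < (64 * (N : ℝ)) ^ 2 := by positivity
  rw [le_div_iff₀ hD] at h1
  have h2' : (a : ℝ) ^ 2 ≤ (17 / 2 - 2 * (1 + M) + 6 / (100 * N)) * (64 * (N : ℝ)) ^ 2 := by
    rw [← div_le_iff₀ hD]; linarith
  have e1 : (17 / 2 - 2 * (1 + M) + 6 / (100 * N)) * (64 * (N : ℝ)) ^ 2 =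
      26624 * (N * N) - 8192 * (M * N) * N + 24576 / 100 * N := by
    field_simp; ring
  rw [e1] at h2'
  have e2 : (17 / 2 - 2 * (1 + M)) * (64 * (N : ℝ)) ^ 2 =
      26624 * (N * N) - 8192 * (M * N) * N := by ring
  rw [e2] at h1
  -- `p ≤ s` and `s ≤ p`
  have hps : (p : ℝ) < s + 1 := by
    have : (N : ℝ) * (M * N) < N * (s + 1) := by nlinarith
    have := lt_of_mul_lt_mul_left this (by positivity)
    linarith
  have hsp : (s : ℝ) < p + 1 := by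
    have : (N : ℝ) * (s - 1 / 2) < N * (M * N) := by nlinarith
    have := lt_of_mul_lt_mul_left this (by positivity)
    linarith
  have e3 : p = s := by
    have a1 : p < s + 1 := by exact_mod_cast hps
    have a2 : s < p + 1 := by exact_mod_cast hsp
    omega
  have e4 : p = 4 * pre h i + (if h i = true then 1 else 0) := pre_succ h i
  by_contra hcon
  rw [if_neg hcon] at e4
  omega

/-- Soundness of the test boxes. -/
theorem sound (h : ℕ → Bool) (c k t s a : ℕ) (hc : Cond (4 ^ (Nat.pair k t + 1)) s a)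
    (hmeet : OrbitMeets ![1, 1 + enc4 h, 1] (point 3 (start c))
      (box 3 (low k (4 ^ (Nat.pair k t + 1)) a, up k (4 ^ (Nat.pair k t + 1)) a))) :
    c = k ∧ h (Nat.pair k t) = true := by
  obtain ⟨q, v, T, hT, hsol, h0, hV⟩ := hmeet
  set i := Nat.pair k t with hi
  have hN4 : 4 ≤ 4 ^ (i + 1) := by
    calc 4 = 4 ^ 1 := by norm_num
      _ ≤ 4 ^ (i + 1) := Nat.pow_le_pow_right (by norm_num) (by omega)
  have hμ1 : 1 ≤ 1 + enc4 h := by have := enc4_nonneg h; linarith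
  have hμ2 : 1 + enc4 h ≤ 4 / 3 := by have := enc4_le h; linarith
  have hE := energy_const hT hsol
  rw [h0, start_energy] at hE
  have hbe := box_energy k (4 ^ (i + 1)) a hN4 hc.2.2.2.2 _ hV _ hμ1 hμ2
  rw [hE] at hbe
  refine ⟨?_, test_arith h i s a hc hbe.1 hbe.2⟩
  -- the centre of mass
  obtain ⟨sq0, sq1, sq2⟩ := start_q c
  obtain ⟨sv0, sv1, sv2⟩ := start_v c
  have hq : q 0 = (point 3 (start c)).1 := by rw [← h0]
  have hv : v 0 = (point 3 (start c)).2 := by rw [← h0]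
  have hcm := centre_const hT hsol (by rw [hv, sv0, sv1, sv2]; simp)
  rw [hq, sq0, sq1, sq2] at hcm
  rw [mem_box_iff k (4 ^ (i + 1)) a (by omega)] at hV
  obtain ⟨⟨-, -, z1, z2⟩, ⟨-, -, z3, z4⟩, ⟨-, -, z5, z6⟩, -⟩ := hV
  simp only at z1 z2 z3 z4 z5 z6
  have e : ((!₂[-1, 0, (c : ℝ)] : R3) 2) = c := rfl
  have e' : ((!₂[0, 0, (c : ℝ)] : R3) 2) = c := rfl
  have e'' : ((!₂[1, 0, (c : ℝ)] : R3) 2) = c := rfl
  rw [e, e', e''] at hcm
  set μ := 1 + enc4 h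
  have hlt1 : (c : ℝ) < k + 1 / 4 := by nlinarith
  have hlt2 : (k : ℝ) < c + 1 / 4 := by nlinarith
  have a1 : (c : ℝ) < k + 1 := by linarith
  have a2 : (k : ℝ) < c + 1 := by linarith
  have a1' : c < k + 1 := by exact_mod_cast a1
  have a2' : k < c + 1 := by exact_mod_cast a2
  omega

end Pool.Agent.W754.NB
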