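import Pool.Agent.W754.NB.Boxes
import Pool.Agent.W754.NB.Digits
import Pool.Agent.W754.NB.Sound

set_option autoImplicit false

open Set Filter Topology

namespace Pool.Agent.W754.NB

section
variable {α : Type} [Primcodable α]

lemma prc {f : α → Name} {g : α → List Name} (hf : Primrec f) (hg : Primrec g) :
    Primrec (fun x => f x :: g x) := Primrec.list_cons.comp hf hg

lemma prn {f g h : α → ℕ} (hf : Primrec f) (hg : Primrec g) (hh : Primrec h) :
    Primrec (fun x => ((f x, g x, h x) : Name)) := hf.pair (hg.pair hh)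

lemma prk {m : ℕ} : Primrec (fun _ : α => m) := Primrec.const m

lemma pradd {f g : α → ℕ} (hf : Primrec f) (hg : Primrec g) : Primrec (fun x => f x + g x) :=
  Primrec.nat_add.comp hf hg

lemma prmul {f g : α → ℕ} (hf : Primrec f) (hg : Primrec g) : Primrec (fun x => f x * g x) :=
  Primrec.nat_mul.comp hf hg

lemma prsub {f g : α → ℕ} (hf : Primrec f) (hg : Primrec g) : Primrec (fun x => f x - g x) :=
  Primrec.nat_sub.comp hf hg

lemma primrec_low {k N a : α → ℕ} (hk : Primrec k) (hN : Primrec N) (ha : Primrec a) :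
    Primrec (fun x => low (k x) (N x) (a x)) := by
  unfold low
  have d : Primrec (fun x => 64 * N x - 1) := prsub (prmul prk hN) prk
  exact prc (prn prk (pradd (prmul prk hN) prk) prk) <| prc (prn prk prk prk) <|
    prc (prn (prmul prk hk) prk prk) <| prc (prn prk prk prk) <| prc (prn prk prk prk) <|
    prc (prn (prmul prk hk) prk prk) <| prc (prn (prmul prk hN) prk prk) <|
    prc (prn prk prk prk) <| prc (prn (prmul prk hk) prk prk) <|
    prc (prn prk (pradd ha prk) d) <| prc (prn prk prk d) <| prc (prn prk prk d) <|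
    prc (prn prk prk d) <| prc (prn prk prk d) <| prc (prn prk prk d) <|
    prc (prn ha prk d) <| prc (prn prk prk d) <| prc (prn prk prk d) (Primrec.const [])

lemma primrec_up {k N a : α → ℕ} (hk : Primrec k) (hN : Primrec N) (ha : Primrec a) :
    Primrec (fun x => up (k x) (N x) (a x)) := by
  unfold up
  have d : Primrec (fun x => 64 * N x - 1) := prsub (prmul prk hN) prk
  have z : Primrec (fun x => 4 * k x + 1) := pradd (prmul prk hk) prk
  exact prc (prn prk (prmul prk hN) prk) <| prc (prn prk prk prk) <|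
    prc (prn z prk prk) <| prc (prn prk prk prk) <| prc (prn prk prk prk) <|
    prc (prn z prk prk) <| prc (prn (pradd (prmul prk hN) prk) prk prk) <|
    prc (prn prk prk prk) <| prc (prn z prk prk) <|
    prc (prn prk ha d) <| prc (prn prk prk d) <| prc (prn prk prk d) <|
    prc (prn prk prk d) <| prc (prn prk prk d) <| prc (prn prk prk d) <|
    prc (prn (pradd ha prk) prk d) <| prc (prn prk prk d) <| prc (prn prk prk d) (Primrec.const [])

lemma primrec_cond {N s a : α → ℕ} (hN : Primrec N) (hs : Primrec s) (ha : Primrec a) :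
    PrimrecPred (fun x => Cond (N x) (s x) (a x)) := by
  unfold Cond
  refine PrimrecPred.and (Primrec.nat_le.comp ?_ ?_) (PrimrecPred.and (Primrec.nat_le.comp ?_ ?_)
    (PrimrecPred.and (Primrec.eq.comp ?_ prk) (PrimrecPred.and (Primrec.nat_le.comp hs hN)
      (Primrec.nat_le.comp ha ?_))))
  · exact pradd (prmul (prmul prk hN) hs) (prmul prk (prmul ha ha))
  · exact pradd (prmul prk (prmul hN hN)) (prmul prk hN)
  · exact prmul prk (prmul hN hN)
  · exact pradd (pradd (prmul (prmul prk hN) hs) (prmul prk hN)) (prmul prk (prmul ha ha))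
  · exact Primrec.nat_mod.comp hs prk
  · exact prmul prk hN

end

lemma primrec_FB : Primrec FB := by
  have u1 : Primrec (fun j : ℕ => j.unpair.1) := Primrec.fst.comp Primrec.unpair
  have u2 : Primrec (fun j : ℕ => j.unpair.2) := Primrec.snd.comp Primrec.unpair
  have N : Primrec (fun j : ℕ => 4 ^ (j.unpair.1 + 1)) :=
    primrec_pow4.comp (pradd u1 prk)
  have k : Primrec (fun j : ℕ => j.unpair.1.unpair.1) := u1.comp u1
  have s : Primrec (fun j : ℕ => j.unpair.2.unpair.1) := u1.comp u2
  have a : Primrec (fun j : ℕ => j.unpair.2.unpair.2) := u2.comp u2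
  unfold FB
  exact Primrec.ite (primrec_cond N s a) ((primrec_low k N a).pair (primrec_up k N a))
    (Primrec.const _)

/-- the target set -/
def target : Set (Phase 3) := ⋃ j, box 3 (FB j)

/-- the modulus for local finiteness -/
def modulus (m : ℕ) : ℕ :=
  ((192 * 4 ^ m + 1) * (192 * 4 ^ m + 1) + m + 1) * ((192 * 4 ^ m + 1) * (192 * 4 ^ m + 1) + m + 1)

lemma primrec_modulus : Primrec modulus := by
  have h1 : Primrec (fun m : ℕ => 192 * 4 ^ m + 1) := pradd (prmul prk primrec_pow4) prk
  have h2 : Primrec (fun m : ℕ => (192 * 4 ^ m + 1) * (192 * 4 ^ m + 1) + m + 1) :=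
    pradd (pradd (prmul h1 h1) Primrec.id) prk
  exact prmul h2 h2

lemma box_empty (x : Phase 3) : x ∉ box 3 (([], []) : List Name × List Name) := by
  intro hx
  have := (hx 0 0).1
  have h0 : ent [] (3 * ((0 : Fin 3) : ℕ) + ((0 : Fin 3) : ℕ)) = 0 := by simp [ent, val]
  simp only [h0] at this
  linarith [this.1, this.2]

lemma target_open : ComputableOpen target := by
  refine ⟨FB, modulus, primrec_FB.to_comp, primrec_modulus.to_comp, rfl, ?_⟩
  · intro m j hj x hx
    unfold FB at hx
    by_cases hc : Cond (4 ^ (j.unpair.1 + 1)) j.unpair.2.unpair.1 j.unpair.2.unpair.2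
    · rw [if_pos hc] at hx
      rw [mem_box_iff _ _ _ (Nat.one_le_pow _ _ (by norm_num))] at hx
      have hx6 := hx.2.2.1.1.1
      refine ⟨2, 0, Or.inl ?_⟩
      -- `m ≤ i`
      have hmi : m ≤ j.unpair.1 := by
        by_contra hcon
        push Not at hcon
        have hN : 4 ^ (j.unpair.1 + 1) ≤ 4 ^ m := Nat.pow_le_pow_right (by norm_num) (by omega)
        have hs : j.unpair.2.unpair.1 ≤ 192 * 4 ^ m := by
          have := hc.2.2.2.1; omega
        have ha : j.unpair.2.unpair.2 ≤ 192 * 4 ^ m := by
          have := hc.2.2.2.2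
          calc _ ≤ _ := this
            _ ≤ _ := Nat.mul_le_mul_left _ hN
        have h1 : j.unpair.2 < (192 * 4 ^ m + 1) * (192 * 4 ^ m + 1) := by
          have := Nat.pair_lt_max_add_one_sq j.unpair.2.unpair.1 j.unpair.2.unpair.2
          rw [Nat.pair_unpair] at this
          refine this.trans_le ?_
          have h3 : max j.unpair.2.unpair.1 j.unpair.2.unpair.2 + 1 ≤ 192 * 4 ^ m + 1 := by
            have := max_le hs ha; omega
          rw [pow_two]
          exact Nat.mul_le_mul h3 h3
        have h2 : j < modulus m := by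
          have := Nat.pair_lt_max_add_one_sq j.unpair.1 j.unpair.2
          rw [Nat.pair_unpair] at this
          refine this.trans_le ?_
          have h3 : max j.unpair.1 j.unpair.2 + 1 ≤
              (192 * 4 ^ m + 1) * (192 * 4 ^ m + 1) + m + 1 := by
            have : max j.unpair.1 j.unpair.2 ≤ (192 * 4 ^ m + 1) * (192 * 4 ^ m + 1) + m :=
              max_le (by omega) (by omega)
            omega
          rw [pow_two]
          exact Nat.mul_le_mul h3 h3
        omega
      have h4 : m < 4 ^ (j.unpair.1 + 1) := by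
        calc m ≤ j.unpair.1 := hmi
          _ < 4 ^ j.unpair.1 := Nat.lt_pow_self (by norm_num)
          _ ≤ 4 ^ (j.unpair.1 + 1) := Nat.pow_le_pow_right (by norm_num) (by omega)
      have h5 : (m : ℝ) < ((4 ^ (j.unpair.1 + 1) : ℕ) : ℝ) := by exact_mod_cast h4
      have h6 : (0 : ℝ) ≤ (m : ℝ) := Nat.cast_nonneg m
      refine lt_of_lt_of_le ?_ (le_abs_self _)
      linarith
    · rw [if_neg hc] at hx
      exact absurd hx (box_empty x)

lemma primrec_start : Primrec start := by
  unfold start
  have z : ∀ l : Name, Primrec (fun _ : ℕ => l) := fun l => Primrec.const l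
  have c : Primrec (fun c : ℕ => ((c, 0, 0) : Name)) := prn Primrec.id prk prk
  exact prc (z _) <| prc (z _) <| prc c <| prc (z _) <| prc (z _) <| prc c <| prc (z _) <|
    prc (z _) <| prc c <| prc (z _) <| prc (z _) <| prc (z _) <| prc (z _) <| prc (z _) <|
    prc (z _) <| prc (z _) <| prc (z _) <| prc (z _) (Primrec.const [])

lemma start_noncoll (c : ℕ) (i j : Fin 3) (hij : i ≠ j) :
    (point 3 (start c)).1 i ≠ (point 3 (start c)).1 j := by
  obtain ⟨sq0, sq1, sq2⟩ := start_q c
  have hne : ∀ x y : ℝ, x ≠ y → (!₂[x, 0, (c : ℝ)] : R3) ≠ !₂[y, 0, (c : ℝ)] := by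
    intro x y hxy heq
    apply hxy
    have := congrArg (fun z : R3 => z 0) heq
    simpa using this
  fin_cases i <;> fin_cases j
  · exact absurd rfl hij
  · show (point 3 (start c)).1 0 ≠ (point 3 (start c)).1 1
    rw [sq0, sq1]; exact hne _ _ (by norm_num)
  · show (point 3 (start c)).1 0 ≠ (point 3 (start c)).1 2
    rw [sq0, sq2]; exact hne _ _ (by norm_num)
  · show (point 3 (start c)).1 1 ≠ (point 3 (start c)).1 0
    rw [sq0, sq1]; exact hne _ _ (by norm_num)
  · exact absurd rfl hij
  · show (point 3 (start c)).1 1 ≠ (point 3 (start c)).1 2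
    rw [sq1, sq2]; exact hne _ _ (by norm_num)
  · show (point 3 (start c)).1 2 ≠ (point 3 (start c)).1 0
    rw [sq0, sq2]; exact hne _ _ (by norm_num)
  · show (point 3 (start c)).1 2 ≠ (point 3 (start c)).1 1
    rw [sq1, sq2]; exact hne _ _ (by norm_num)
  · exact absurd rfl hij

end Pool.Agent.W754.NB
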