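import Pool.Agent.W754.NB.Defs

set_option autoImplicit false

open Set Filter Topology

namespace Pool.Agent.W754.NB

/-- The one-dimensional escape solution: `r'' = -k / r²`, `r(0) = 1`, `r'(0) = 3`. -/
theorem exists_escape (k : ℝ) (hk0 : 0 < k) (hk : k ≤ 2) (R : ℝ) (hR : 1 ≤ R) :
    ∃ (r w : ℝ → ℝ) (T : ℝ), 0 ≤ T ∧ r 0 = 1 ∧ w 0 = 3 ∧ r T = R ∧
      (∀ t ∈ Icc 0 T, 1 ≤ r t ∧ 0 < w t ∧ w t ^ 2 = 9 - 2 * k + 2 * k / r t ∧
        HasDerivAt r (w t) t ∧ HasDerivAt w (-k / (r t) ^ 2) t) := by
  set F : ℝ → ℝ := fun s => 9 - 2 * k + 2 * k / max s (1 / 2) with hF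
  have hmax : ∀ s : ℝ, 0 < max s (1 / 2) := fun s => lt_of_lt_of_le (by norm_num) (le_max_right _ _)
  have hFpos : ∀ s, 0 < F s := by
    intro s
    have : 0 < 2 * k / max s (1 / 2) := by have := hmax s; positivity
    simp only [hF]; linarith
  have hFle : ∀ s, F s ≤ 16 := by
    intro s
    have h1 : 2 * k / max s (1 / 2) ≤ 4 * k := by
      rw [div_le_iff₀ (hmax s)]
      have : (1 : ℝ) / 2 ≤ max s (1 / 2) := le_max_right _ _
      nlinarith
    simp only [hF]; linarith
  have hFcont : Continuous F := by
    refine continuous_const.add (continuous_const.div ?_ fun s => (hmax s).ne')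
    exact continuous_id.max continuous_const
  set φ : ℝ → ℝ := fun s => (√(F s))⁻¹ with hφ
  have hsq : ∀ s, 0 < √(F s) := fun s => Real.sqrt_pos.2 (hFpos s)
  have hφpos : ∀ s, 0 < φ s := fun s => inv_pos.2 (hsq s)
  have hφcont : Continuous φ := (Real.continuous_sqrt.comp hFcont).inv₀ fun s => (hsq s).ne'
  have hφge : ∀ s, 1 / 4 ≤ φ s := by
    intro s
    simp only [hφ]
    rw [one_div]
    apply inv_anti₀ (hsq s)
    rw [Real.sqrt_le_left (by norm_num)]
    have := hFle s
    linarith
  set G : ℝ → ℝ := fun x => ∫ s in (1 : ℝ)..x, φ s with hG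
  have hGd : ∀ x, HasDerivAt G (φ x) x := fun x =>
    intervalIntegral.integral_hasDerivAt_right (hφcont.intervalIntegrable _ _)
      (hφcont.stronglyMeasurableAtFilter _ _) hφcont.continuousAt
  have hG1 : G 1 = 0 := by simp [hG]
  have hGmono : StrictMono G := strictMono_of_deriv_pos fun x => by
    rw [(hGd x).deriv]; exact hφpos x
  have hGcont : Continuous G := continuous_iff_continuousAt.2 fun x => (hGd x).continuousAt
  have hKmono : Monotone fun x => G x - x / 4 := by
    apply monotone_of_deriv_nonneg
    · intro x; exact ((hGd x).differentiableAt).sub (by fun_prop)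
    · intro x
      have : HasDerivAt (fun x => G x - x / 4) (φ x - 1 / 4) x :=
        (hGd x).sub ((hasDerivAt_id x).div_const 4)
      rw [this.deriv]
      have := hφge x
      linarith
  have htop : Tendsto G atTop atTop := by
    apply tendsto_atTop_mono' atTop (f₁ := fun x : ℝ => x / 4 - 1 / 4)
    · filter_upwards [eventually_ge_atTop (1 : ℝ)] with x hx
      have := hKmono hx
      simp only [hG1] at this
      linarith
    · exact tendsto_atTop_add_const_right _ _ (tendsto_id.atTop_div_const (by norm_num))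
  have hbot : Tendsto G atBot atBot := by
    apply tendsto_atBot_mono' atBot (f₂ := G) (f₁ := fun x : ℝ => x / 4 - 1 / 4)
    · filter_upwards [eventually_le_atBot (1 : ℝ)] with x hx
      have := hKmono hx
      simp only [hG1] at this
      linarith
    · exact tendsto_atBot_add_const_right _ _ (tendsto_id.atBot_div_const (by norm_num))
  have hsurj : Function.Surjective G := hGcont.surjective htop hbot
  set e : ℝ ≃o ℝ := StrictMono.orderIsoOfSurjective G hGmono hsurj with he
  have heG : ∀ x, e x = G x := fun x => rfl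
  set r : ℝ → ℝ := fun t => e.symm t with hr
  have hGr : ∀ t, G (r t) = t := fun t => e.apply_symm_apply t
  have hrG : ∀ x, r (G x) = x := fun x => e.symm_apply_apply x
  have hrcont : Continuous r := e.symm.continuous
  have hrmono : StrictMono r := e.symm.strictMono
  have hrd : ∀ t, HasDerivAt r (√(F (r t))) t := by
    intro t
    have := HasDerivAt.of_local_left_inverse (f := G) (g := r) (a := t) hrcont.continuousAt
      (hGd (r t)) (hφpos _).ne' (Eventually.of_forall hGr)
    simpa [hφ] using this
  have hr0 : r 0 = 1 := by rw [← hG1]; exact hrG 1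
  refine ⟨r, fun t => √(F (r t)), G R, ?_, hr0, ?_, hrG R, ?_⟩
  · rw [← hG1]; exact hGmono.monotone hR
  · simp only [hr0, hF]
    rw [max_eq_left (by norm_num)]
    rw [show (9 : ℝ) - 2 * k + 2 * k / 1 = 3 ^ 2 by ring]
    exact Real.sqrt_sq (by norm_num)
  · intro t ht
    have hrt : 1 ≤ r t := by rw [← hr0]; exact hrmono.monotone ht.1
    have hFt : F (r t) = 9 - 2 * k + 2 * k / r t := by
      simp only [hF]
      rw [max_eq_left (by linarith)]
    refine ⟨hrt, hsq _, ?_, hrd t, ?_⟩
    · rw [Real.sq_sqrt (hFpos _).le, hFt]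
    · have hev : (fun s => √(F (r s))) =ᶠ[𝓝 t] fun s => √(9 - 2 * k + 2 * k / r s) := by
        have : ∀ᶠ s in 𝓝 t, 1 / 2 < r s :=
          hrcont.continuousAt.eventually_const_lt (by linarith)
        filter_upwards [this] with s hs
        simp only [hF]
        rw [max_eq_left hs.le]
      refine HasDerivAt.congr_of_eventuallyEq ?_ hev
      have h1 : HasDerivAt (fun s => 9 - 2 * k + 2 * k / r s)
          (-(2 * k * √(F (r t))) / (r t) ^ 2) t := by
        have := ((hasDerivAt_const t (2 * k)).div (hrd t) (by linarith : r t ≠ 0)).const_add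
          (9 - 2 * k)
        refine this.congr_deriv ?_
        simp
      have h2 := h1.sqrt (by rw [← hFt]; exact (hFpos _).ne')
      refine h2.congr_deriv ?_
      rw [← hFt]
      have := (hsq (r t)).ne'
      have h3 : r t ≠ 0 := by linarith
      field_simp

end Pool.Agent.W754.NB
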