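import Pool.Agent.W754.NB.Sound
import Pool.Agent.W754.NB.Escape

set_option autoImplicit false

open Set Filter Topology

namespace Pool.Agent.W754.NB

lemma hasDeriv_vec {r : ℝ → ℝ} {r' c : ℝ} {S : Set ℝ} {t : ℝ} (h : HasDerivWithinAt r r' S t) :
    HasDerivWithinAt (fun s => (!₂[r s, 0, c] : R3)) (!₂[r', 0, 0] : R3) S t := by
  have e : (fun s => (!₂[r s, 0, c] : R3)) =
      fun s => r s • (!₂[1, 0, 0] : R3) + (!₂[0, 0, c] : R3) := by
    funext s
    ext i
    fin_cases i <;> simp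
  rw [e]
  refine ((h.smul_const (!₂[1, 0, 0] : R3)).add_const _).congr_deriv ?_
  ext i
  fin_cases i <;> simp

lemma norm_vec (x : ℝ) : ‖(!₂[x, 0, 0] : R3)‖ = |x| := by
  have : ‖(!₂[x, 0, 0] : R3)‖ ^ 2 = |x| ^ 2 := by
    rw [norm_sq_three, sq_abs]; simp
  exact (pow_left_inj₀ (norm_nonneg _) (abs_nonneg _) (by norm_num)).1 this

lemma sub_vec (x y c : ℝ) : (!₂[x, 0, c] : R3) - !₂[y, 0, c] = !₂[x - y, 0, 0] := by
  ext i
  fin_cases i <;> simp

lemma smul_vec (a x : ℝ) : a • (!₂[x, 0, 0] : R3) = !₂[a * x, 0, 0] := by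
  ext i
  fin_cases i <;> simp

lemma add_vec (x y : ℝ) : (!₂[x, 0, 0] : R3) + !₂[y, 0, 0] = !₂[x + y, 0, 0] := by
  ext i
  fin_cases i <;> simp

/-- The escaping collinear solution. -/
lemma escape_solution (μ : ℝ) (hμ1 : 1 ≤ μ) (hμ2 : μ ≤ 4 / 3) (c : ℕ) (R : ℝ) (hR : 1 ≤ R) :
    ∃ (q v : ℝ → Fin 3 → R3) (T w : ℝ), 0 ≤ T ∧ IsSolution ![1, μ, 1] q v T ∧
      (q 0, v 0) = point 3 (start c) ∧ 0 < w ∧ w ^ 2 = 9 - 2 * (μ + 1 / 4) + 2 * (μ + 1 / 4) / R ∧
      q T = ![!₂[-R, 0, (c : ℝ)], !₂[0, 0, (c : ℝ)], !₂[R, 0, (c : ℝ)]] ∧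
      v T = ![!₂[-w, 0, 0], 0, !₂[w, 0, 0]] := by
  obtain ⟨r, w, T, hT, hr0, hw0, hrT, H⟩ := exists_escape (μ + 1 / 4) (by linarith) (by linarith) R hR
  refine ⟨fun t => ![!₂[-r t, 0, (c : ℝ)], !₂[0, 0, (c : ℝ)], !₂[r t, 0, (c : ℝ)]],
    fun t => ![!₂[-w t, 0, 0], 0, !₂[w t, 0, 0]], T, w T, hT, ?_, ?_, ?_, ?_, ?_, rfl⟩
  · have hne : ∀ x y : ℝ, x ≠ y → (!₂[x, 0, (c : ℝ)] : R3) ≠ !₂[y, 0, (c : ℝ)] := by
      intro x y hxy heq
      apply hxy
      have := congrArg (fun z : R3 => z 0) heq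
      simpa using this
    constructor
    · intro t ht i j hij
      obtain ⟨h1, -⟩ := H t ht
      fin_cases i <;> fin_cases j
      · exact absurd rfl hij
      · exact hne _ _ (by linarith)
      · exact hne _ _ (by linarith)
      · exact hne _ _ (by linarith)
      · exact absurd rfl hij
      · exact hne _ _ (by linarith)
      · exact hne _ _ (by linarith)
      · exact hne _ _ (by linarith)
      · exact absurd rfl hij
    · intro t ht i
      obtain ⟨h1, h2, h3, h4, h5⟩ := H t ht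
      fin_cases i
      · exact hasDeriv_vec h4.hasDerivWithinAt.neg
      · exact hasDerivWithinAt_const _ _ _
      · exact hasDeriv_vec h4.hasDerivWithinAt
    · intro t ht i
      obtain ⟨h1, h2, h3, h4, h5⟩ := H t ht
      have hr : 0 < r t := by linarith
      fin_cases i
      · have := hasDeriv_vec (c := 0) h5.hasDerivWithinAt.neg (S := Icc 0 T)
        refine this.congr_deriv ?_
        show _ = accel ![1, μ, 1] _ 0
        rw [accel_zero]
        simp only [Matrix.cons_val_zero, Matrix.cons_val_one, Matrix.cons_val]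
        rw [sub_vec, sub_vec, norm_vec, norm_vec, smul_vec, smul_vec, add_vec]
        rw [show 0 - -r t = r t by ring, show r t - -r t = 2 * r t by ring, abs_of_pos hr,
          abs_of_pos (by linarith : 0 < 2 * r t)]
        have e : -(-(μ + 1 / 4) / r t ^ 2) = μ / r t ^ 3 * r t + 1 / (2 * r t) ^ 3 * (2 * r t) := by
          field_simp; ring
        rw [e]
      · show HasDerivWithinAt (fun s => (0 : R3)) (accel ![1, μ, 1] _ 1) (Icc 0 T) t
        refine (hasDerivWithinAt_const _ _ _).congr_deriv ?_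
        rw [accel_one]
        simp only [Matrix.cons_val_zero, Matrix.cons_val_one, Matrix.cons_val]
        rw [sub_vec, sub_vec, norm_vec, norm_vec, smul_vec, smul_vec, add_vec]
        rw [show -r t - 0 = -r t by ring, show r t - 0 = r t by ring, abs_neg]
        have e : 1 / |r t| ^ 3 * -r t + 1 / |r t| ^ 3 * r t = 0 := by ring
        rw [e]
        ext i
        fin_cases i <;> simp
      · have := hasDeriv_vec (c := 0) h5.hasDerivWithinAt (S := Icc 0 T)
        refine this.congr_deriv ?_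
        show _ = accel ![1, μ, 1] _ 2
        rw [accel_two]
        simp only [Matrix.cons_val_zero, Matrix.cons_val_one, Matrix.cons_val]
        rw [sub_vec, sub_vec, norm_vec, norm_vec, smul_vec, smul_vec, add_vec]
        rw [show -r t - r t = -(2 * r t) by ring, show 0 - r t = -r t by ring, abs_neg, abs_neg,
          abs_of_pos hr, abs_of_pos (by linarith : 0 < 2 * r t)]
        have e : -(μ + 1 / 4) / r t ^ 2 =
            1 / (2 * r t) ^ 3 * (-(2 * r t)) + μ / r t ^ 3 * (-r t) := by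
          field_simp; ring
        rw [e]
  · obtain ⟨sq0, sq1, sq2⟩ := start_q c
    obtain ⟨sv0, sv1, sv2⟩ := start_v c
    refine Prod.ext ?_ ?_
    · funext i
      fin_cases i
      · show (!₂[-r 0, 0, (c : ℝ)] : R3) = _
        rw [hr0]; exact sq0.symm
      · exact sq1.symm
      · show (!₂[r 0, 0, (c : ℝ)] : R3) = _
        rw [hr0]; exact sq2.symm
    · funext i
      fin_cases i
      · show (!₂[-w 0, 0, 0] : R3) = _
        rw [hw0]; exact sv0.symm
      · exact sv1.symm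
      · show (!₂[w 0, 0, 0] : R3) = _
        rw [hw0]; exact sv2.symm
  · exact (H T ⟨hT, le_refl _⟩).2.1
  · have := (H T ⟨hT, le_refl _⟩).2.2.1
    rw [hrT] at this
    exact this
  · simp only [hrT]

/-- Completeness of the test boxes. -/
theorem complete (h : ℕ → Bool) (c t : ℕ) (ht : h (Nat.pair c t) = true) :
    ∃ s a, Cond (4 ^ (Nat.pair c t + 1)) s a ∧
      OrbitMeets ![1, 1 + enc4 h, 1] (point 3 (start c))
        (box 3 (low c (4 ^ (Nat.pair c t + 1)) a, up c (4 ^ (Nat.pair c t + 1)) a)) := by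
  set i := Nat.pair c t with hi
  have hN4 : 4 ≤ 4 ^ (i + 1) := by
    calc 4 = 4 ^ 1 := by norm_num
      _ ≤ 4 ^ (i + 1) := Nat.pow_le_pow_right (by norm_num) (by omega)
  obtain ⟨p1, p2⟩ := enc4_pre h (i + 1)
  have hpl := pre_le h (i + 1)
  have hNc : ((4 ^ (i + 1) : ℕ) : ℝ) = 4 ^ (i + 1) := by push_cast; ring
  rw [← hNc] at p1 p2
  have hs4 : pre h (i + 1) % 4 = 1 := by
    rw [pre_succ, if_pos ht]; omega
  set N : ℕ := 4 ^ (i + 1) with hN
  set s : ℕ := pre h (i + 1) with hs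
  set M : ℝ := enc4 h with hM
  have hM0 : 0 ≤ M := enc4_nonneg h
  have hM1 : M ≤ 1 / 3 := enc4_le h
  have hNr : (4 : ℝ) ≤ N := by exact_mod_cast hN4
  obtain ⟨q, v, T, w, hT, hsol, h0, hw, hw2, hqT, hvT⟩ := escape_solution (1 + M) (by linarith)
    (by linarith) c (100 * N + 1 / 2) (by linarith)
  -- bounds for `w`
  set R : ℝ := 100 * N + 1 / 2 with hR
  have hRpos : 0 < R := by positivity
  have hkR1 : 0 ≤ 2 * (1 + M + 1 / 4) / R := by positivity
  have hkR2 : 2 * (1 + M + 1 / 4) / R * N ≤ 1 / 25 := by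
    rw [div_mul_eq_mul_div, div_le_iff₀ hRpos]
    nlinarith
  have hw3 : w ≤ 3 := by
    have h1 : 2 * (1 + M + 1 / 4) / R ≤ 2 * (1 + M + 1 / 4) := by
      apply div_le_self (by positivity); linarith
    have : w ^ 2 ≤ 3 ^ 2 := by rw [hw2]; linarith
    exact (sq_le_sq₀ hw.le (by norm_num)).1 this
  -- the number `a`
  set y : ℝ := w * (64 * N) with hy
  have hy0 : 0 < y := by positivity
  obtain ⟨a, ha⟩ : ∃ a : ℕ, ⌈y⌉₊ = a + 1 := ⟨⌈y⌉₊ - 1, by
    have := Nat.ceil_pos.2 hy0; omega⟩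
  have ha1 : (a : ℝ) < y := by
    have : a < ⌈y⌉₊ := by omega
    exact Nat.lt_ceil.1 this
  have ha2 : y ≤ a + 1 := by
    have := Nat.le_ceil y
    rw [ha] at this
    exact_mod_cast this
  have ha3 : a ≤ 192 * N := by
    have : (a : ℝ) ≤ 192 * N := by
      calc (a : ℝ) ≤ y := ha1.le
        _ ≤ 3 * (64 * N) := mul_le_mul_of_nonneg_right hw3 (by positivity)
        _ = 192 * N := by ring
    exact_mod_cast this
  have hyy : y * y = (26624 * (N * N) - 8192 * (M * N) * N) +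
      4096 * (2 * (1 + M + 1 / 4) / R * N) * N := by
    have : y * y = w ^ 2 * (4096 * (N * N)) := by rw [hy]; ring
    rw [this, hw2]; ring
  have hy192 : y ≤ 192 * N := by
    calc y ≤ 3 * (64 * N) := mul_le_mul_of_nonneg_right hw3 (by positivity)
      _ = 192 * N := by ring
  have haa1 : (a : ℝ) * a ≤ y * y := mul_self_le_mul_self (Nat.cast_nonneg a) ha1.le
  have haa2 : y * y - 2 * y ≤ (a : ℝ) * a := by
    have h1 : y - 1 ≤ a := by linarith
    rcases le_or_gt 1 y with h2 | h2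
    · have := mul_self_le_mul_self (by linarith : (0 : ℝ) ≤ y - 1) h1
      nlinarith
    · have : 0 ≤ (a : ℝ) * a := by positivity
      nlinarith
  have hz1 : 0 ≤ 2 * (1 + M + 1 / 4) / R * N := by positivity
  have hMN1 : (s : ℝ) * N ≤ (M * N) * N := mul_le_mul_of_nonneg_right p1 (by positivity)
  have hMN2 : (M * N) * N ≤ ((s : ℝ) + 1 / 3) * N := mul_le_mul_of_nonneg_right p2 (by positivity)
  have hz2 : 4096 * (2 * (1 + M + 1 / 4) / R * N) * N ≤ 4096 * (1 / 25) * N := by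
    apply mul_le_mul_of_nonneg_right _ (by positivity)
    linarith
  have hz3 : 0 ≤ 4096 * (2 * (1 + M + 1 / 4) / R * N) * N := by positivity
  refine ⟨s, a, ⟨?_, ?_, hs4, hpl, ha3⟩, q, v, T, hT, hsol, h0, ?_⟩
  · have : (40960 : ℝ) * N * s + 5 * (a * a) ≤ 133120 * (N * N) + 8192 * N := by nlinarith
    exact_mod_cast this
  · have : (133120 : ℝ) * (N * N) ≤ 40960 * N * s + 24576 * N + 5 * (a * a) := by nlinarith
    exact_mod_cast this
  · have hD : (0 : ℝ) < 64 * N := by positivity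
    have b1 : (a : ℝ) / (64 * N) < w := by rw [div_lt_iff₀ hD]; exact ha1
    have b2 : w < ((a : ℝ) + 2) / (64 * N) := by rw [lt_div_iff₀ hD]; linarith
    have b3 : 0 < 1 / (64 * (N : ℝ)) := by positivity
    rw [mem_box_iff c N a (by omega), hqT, hvT]
    simp only [Matrix.cons_val_zero, Matrix.cons_val_one, Matrix.cons_val, PiLp.zero_apply]
    refine ⟨⟨⟨?_, ?_⟩, ⟨by norm_num, by norm_num⟩, ?_, ?_⟩,
      ⟨⟨by norm_num, by norm_num⟩, ⟨by norm_num, by norm_num⟩, ?_, ?_⟩,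
      ⟨⟨?_, ?_⟩, ⟨by norm_num, by norm_num⟩, ?_, ?_⟩,
      ⟨⟨by linarith, by linarith⟩, ⟨by linarith, b3⟩, by linarith, b3⟩,
      ⟨⟨by linarith, b3⟩, ⟨by linarith, b3⟩, by linarith, b3⟩,
      ⟨⟨by linarith, by linarith⟩, ⟨by linarith, b3⟩, by linarith, b3⟩⟩ <;>
    linarith

end Pool.Agent.W754.NB
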