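import Pool.Agent.W754.NB.Defs

set_option autoImplicit false

open Set Filter Topology

namespace Pool.Agent.W754.NB

/-- lower corner of the test box -/
def low (k N a : ℕ) : List Name :=
  [(0, 100 * N + 1, 0), (0, 1, 3), (4 * k, 1, 3),
    (0, 1, 3), (0, 1, 3), (4 * k, 1, 3),
    (100 * N, 0, 0), (0, 1, 3), (4 * k, 1, 3),
    (0, a + 2, 64 * N - 1), (0, 1, 64 * N - 1), (0, 1, 64 * N - 1),
    (0, 1, 64 * N - 1), (0, 1, 64 * N - 1), (0, 1, 64 * N - 1),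
    (a, 0, 64 * N - 1), (0, 1, 64 * N - 1), (0, 1, 64 * N - 1)]

/-- upper corner of the test box -/
def up (k N a : ℕ) : List Name :=
  [(0, 100 * N, 0), (1, 0, 3), (4 * k + 1, 0, 3),
    (1, 0, 3), (1, 0, 3), (4 * k + 1, 0, 3),
    (100 * N + 1, 0, 0), (1, 0, 3), (4 * k + 1, 0, 3),
    (0, a, 64 * N - 1), (1, 0, 64 * N - 1), (1, 0, 64 * N - 1),
    (1, 0, 64 * N - 1), (1, 0, 64 * N - 1), (1, 0, 64 * N - 1),
    (a + 2, 0, 64 * N - 1), (1, 0, 64 * N - 1), (1, 0, 64 * N - 1)]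

/-- the condition for including the test box -/
def Cond (N s a : ℕ) : Prop :=
  40960 * N * s + 5 * (a * a) ≤ 133120 * (N * N) + 8192 * N ∧
    133120 * (N * N) ≤ 40960 * N * s + 24576 * N + 5 * (a * a) ∧ s % 4 = 1 ∧ s ≤ N ∧ a ≤ 192 * N

instance (N s a : ℕ) : Decidable (Cond N s a) := by unfold Cond; infer_instance

/-- the `j`-th box -/
def FB (j : ℕ) : List Name × List Name :=
  if Cond (4 ^ (j.unpair.1 + 1)) j.unpair.2.unpair.1 j.unpair.2.unpair.2 then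
    (low j.unpair.1.unpair.1 (4 ^ (j.unpair.1 + 1)) j.unpair.2.unpair.2,
      up j.unpair.1.unpair.1 (4 ^ (j.unpair.1 + 1)) j.unpair.2.unpair.2)
  else ([], [])

lemma mem_box_iff (k N a : ℕ) (hN : 1 ≤ N) (x : Phase 3) :
    x ∈ box 3 (low k N a, up k N a) ↔
      ((-(100 * (N : ℝ) + 1) < x.1 0 0 ∧ x.1 0 0 < -(100 * (N : ℝ))) ∧
        (-(1 / 4) < x.1 0 1 ∧ x.1 0 1 < 1 / 4) ∧
        ((k : ℝ) - 1 / 4 < x.1 0 2 ∧ x.1 0 2 < (k : ℝ) + 1 / 4)) ∧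
      ((-(1 / 4) < x.1 1 0 ∧ x.1 1 0 < 1 / 4) ∧
        (-(1 / 4) < x.1 1 1 ∧ x.1 1 1 < 1 / 4) ∧
        ((k : ℝ) - 1 / 4 < x.1 1 2 ∧ x.1 1 2 < (k : ℝ) + 1 / 4)) ∧
      (((100 * (N : ℝ)) < x.1 2 0 ∧ x.1 2 0 < (100 * (N : ℝ)) + 1) ∧
        (-(1 / 4) < x.1 2 1 ∧ x.1 2 1 < 1 / 4) ∧
        ((k : ℝ) - 1 / 4 < x.1 2 2 ∧ x.1 2 2 < (k : ℝ) + 1 / 4)) ∧
      ((-(((a : ℝ) + 2) / (64 * N)) < x.2 0 0 ∧ x.2 0 0 < -((a : ℝ) / (64 * N))) ∧
        (-(1 / (64 * (N : ℝ))) < x.2 0 1 ∧ x.2 0 1 < 1 / (64 * N)) ∧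
        (-(1 / (64 * (N : ℝ))) < x.2 0 2 ∧ x.2 0 2 < 1 / (64 * N))) ∧
      ((-(1 / (64 * (N : ℝ))) < x.2 1 0 ∧ x.2 1 0 < 1 / (64 * N)) ∧
        (-(1 / (64 * (N : ℝ))) < x.2 1 1 ∧ x.2 1 1 < 1 / (64 * N)) ∧
        (-(1 / (64 * (N : ℝ))) < x.2 1 2 ∧ x.2 1 2 < 1 / (64 * N))) ∧
      (((a : ℝ) / (64 * N) < x.2 2 0 ∧ x.2 2 0 < ((a : ℝ) + 2) / (64 * N)) ∧
        (-(1 / (64 * (N : ℝ))) < x.2 2 1 ∧ x.2 2 1 < 1 / (64 * N)) ∧
        (-(1 / (64 * (N : ℝ))) < x.2 2 2 ∧ x.2 2 2 < 1 / (64 * N))) := by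
  have hD : ((64 * N - 1 : ℕ) : ℝ) + 1 = 64 * N := by
    have : 1 ≤ 64 * N := by omega
    push_cast [Nat.cast_sub this]; ring
  have e1 : ∀ k : ℕ, val (4 * k, 1, 3) = (k : ℝ) - 1 / 4 := by
    intro k; simp only [val]; push_cast; ring
  have e2 : ∀ k : ℕ, val (4 * k + 1, 0, 3) = (k : ℝ) + 1 / 4 := by
    intro k; simp only [val]; push_cast; ring
  have e3 : val (0, 1, 3) = -(1 / 4 : ℝ) := by simp only [val]; push_cast; ring
  have e4 : val (1, 0, 3) = (1 / 4 : ℝ) := by simp only [val]; push_cast; ring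
  have e5 : ∀ b : ℕ, val (0, b, 64 * N - 1) = -((b : ℝ) / (64 * N)) := by
    intro b; simp only [val]; rw [hD]; push_cast; ring
  have e6 : ∀ b : ℕ, val (b, 0, 64 * N - 1) = ((b : ℝ) / (64 * N)) := by
    intro b; simp only [val]; rw [hD]; push_cast; ring
  have e7 : ∀ b : ℕ, val (0, b, 0) = -(b : ℝ) := by
    intro b; simp only [val]; push_cast; ring
  have e8 : ∀ b : ℕ, val (b, 0, 0) = (b : ℝ) := by
    intro b; simp only [val]; push_cast; ring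
  have l0 : ent (low k N a) 0 = -(100 * (N : ℝ) + 1) := by
    show val (0, 100 * N + 1, 0) = _; rw [e7]; push_cast; ring
  have u0 : ent (up k N a) 0 = -(100 * (N : ℝ)) := by
    show val (0, 100 * N, 0) = _; rw [e7]; push_cast; ring
  have l1 : ent (low k N a) 1 = -(1 / 4) := e3
  have u1 : ent (up k N a) 1 = 1 / 4 := e4
  have l2 : ent (low k N a) 2 = (k : ℝ) - 1 / 4 := e1 k
  have u2 : ent (up k N a) 2 = (k : ℝ) + 1 / 4 := e2 k
  have l3 : ent (low k N a) 3 = -(1 / 4) := e3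
  have u3 : ent (up k N a) 3 = 1 / 4 := e4
  have l4 : ent (low k N a) 4 = -(1 / 4) := e3
  have u4 : ent (up k N a) 4 = 1 / 4 := e4
  have l5 : ent (low k N a) 5 = (k : ℝ) - 1 / 4 := e1 k
  have u5 : ent (up k N a) 5 = (k : ℝ) + 1 / 4 := e2 k
  have l6 : ent (low k N a) 6 = (100 * (N : ℝ)) := by
    show val (100 * N, 0, 0) = _; rw [e8]; push_cast; ring
  have u6 : ent (up k N a) 6 = (100 * (N : ℝ)) + 1 := by
    show val (100 * N + 1, 0, 0) = _; rw [e8]; push_cast; ring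
  have l7 : ent (low k N a) 7 = -(1 / 4) := e3
  have u7 : ent (up k N a) 7 = 1 / 4 := e4
  have l8 : ent (low k N a) 8 = (k : ℝ) - 1 / 4 := e1 k
  have u8 : ent (up k N a) 8 = (k : ℝ) + 1 / 4 := e2 k
  have l9 : ent (low k N a) 9 = -(((a : ℝ) + 2) / (64 * N)) := by
    show val (0, a + 2, 64 * N - 1) = _; rw [e5]; push_cast; ring
  have u9 : ent (up k N a) 9 = -((a : ℝ) / (64 * N)) := e5 a
  have m5 : val (0, 1, 64 * N - 1) = -(1 / (64 * (N : ℝ))) := by rw [e5]; push_cast; ring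
  have m6 : val (1, 0, 64 * N - 1) = (1 / (64 * (N : ℝ))) := by rw [e6]; push_cast; ring
  have l10 : ent (low k N a) 10 = -(1 / (64 * (N : ℝ))) := m5
  have u10 : ent (up k N a) 10 = 1 / (64 * (N : ℝ)) := m6
  have l11 : ent (low k N a) 11 = -(1 / (64 * (N : ℝ))) := m5
  have u11 : ent (up k N a) 11 = 1 / (64 * (N : ℝ)) := m6
  have l12 : ent (low k N a) 12 = -(1 / (64 * (N : ℝ))) := m5
  have u12 : ent (up k N a) 12 = 1 / (64 * (N : ℝ)) := m6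
  have l13 : ent (low k N a) 13 = -(1 / (64 * (N : ℝ))) := m5
  have u13 : ent (up k N a) 13 = 1 / (64 * (N : ℝ)) := m6
  have l14 : ent (low k N a) 14 = -(1 / (64 * (N : ℝ))) := m5
  have u14 : ent (up k N a) 14 = 1 / (64 * (N : ℝ)) := m6
  have l15 : ent (low k N a) 15 = (a : ℝ) / (64 * N) := e6 a
  have u15 : ent (up k N a) 15 = ((a : ℝ) + 2) / (64 * N) := by
    show val (a + 2, 0, 64 * N - 1) = _; rw [e6]; push_cast; ring
  have l16 : ent (low k N a) 16 = -(1 / (64 * (N : ℝ))) := m5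
  have u16 : ent (up k N a) 16 = 1 / (64 * (N : ℝ)) := m6
  have l17 : ent (low k N a) 17 = -(1 / (64 * (N : ℝ))) := m5
  have u17 : ent (up k N a) 17 = 1 / (64 * (N : ℝ)) := m6
  unfold box
  simp only [Set.mem_ofPred_eq, Fin.forall_fin_succ, Fin.isValue,
    Fin.val_zero, Fin.val_succ, Fin.succ_zero_eq_one, Fin.succ_one_eq_two, mul_zero, mul_one,
    zero_add, add_zero, IsEmpty.forall_iff, and_true]
  norm_num only [l0, u0, l1, u1, l2, u2, l3, u3, l4, u4, l5, u5, l6, u6, l7, u7, l8, u8, l9, u9,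
    l10, u10, l11, u11, l12, u12, l13, u13, l14, u14, l15, u15, l16, u16, l17, u17]
  tauto

end Pool.Agent.W754.NB
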