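import Mathlib

set_option autoImplicit false

open Set

namespace Pool.Agent.W754.NB

/-- Euclidean three-space. -/
abbrev R3 : Type := EuclideanSpace ℝ (Fin 3)

/-- Positions and velocities of `n` bodies. -/
abbrev Phase (n : ℕ) : Type := (Fin n → R3) × (Fin n → R3)

/-- The Newtonian acceleration of the `i`-th of `n` bodies with masses `m` (gravitational
constant `1`). -/
noncomputable def accel {n : ℕ} (m : Fin n → ℝ) (q : Fin n → R3) (i : Fin n) : R3 :=
  ∑ j ∈ Finset.univ.erase i, (m j / ‖q j - q i‖ ^ 3) • (q j - q i)

/-- `q, v` (positions and velocities as functions of time) solve the Newtonian `n`-body problem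
with masses `m` on the time interval `[0, T]`, without collisions. -/
structure IsSolution {n : ℕ} (m : Fin n → ℝ) (q v : ℝ → Fin n → R3) (T : ℝ) : Prop where
  noncoll : ∀ t ∈ Icc 0 T, ∀ i j, i ≠ j → q t i ≠ q t j
  dq : ∀ t ∈ Icc 0 T, ∀ i, HasDerivWithinAt (fun s => q s i) (v t i) (Icc 0 T) t
  dv : ∀ t ∈ Icc 0 T, ∀ i, HasDerivWithinAt (fun s => v s i) (accel m (q t) i) (Icc 0 T) t

/-- The positive trajectory of the `n`-body flow (masses `m`) through the point `x` of the phase
space meets the set `V`: some solution on some interval `[0, T]`, `T ≥ 0`, starts in `x` and is in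
`V` at time `T`. -/
def OrbitMeets {n : ℕ} (m : Fin n → ℝ) (x : Phase n) (V : Set (Phase n)) : Prop :=
  ∃ (q v : ℝ → Fin n → R3) (T : ℝ), 0 ≤ T ∧ IsSolution m q v T ∧ (q 0, v 0) = x ∧ (q T, v T) ∈ V

/-- Names of rational numbers: `(a, b, d)` stands for `(a - b) / (d + 1)`. -/
abbrev Name : Type := ℕ × ℕ × ℕ

/-- The rational number with the name `c`. -/
noncomputable def val (c : Name) : ℝ := ((c.1 : ℝ) - (c.2.1 : ℝ)) / ((c.2.2 : ℝ) + 1)

/-- The `i`-th number of a list of (names of) rational numbers (`0` if the list is too short). -/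
noncomputable def ent (l : List Name) (i : ℕ) : ℝ := val ((l[i]?).getD (0, 0, 0))

/-- The point of the phase space of `n` bodies with the rational coordinates given by a list:
first the `3n` coordinates of the positions, then the `3n` coordinates of the velocities. -/
noncomputable def point (n : ℕ) (l : List Name) : Phase n :=
  (fun i => WithLp.toLp 2 (fun j : Fin 3 => ent l (3 * i + j)),
    fun i => WithLp.toLp 2 (fun j : Fin 3 => ent l (3 * n + 3 * i + j)))

/-- The open box with the rational corners `b.1` and `b.2` in the phase space of `n` bodies. -/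
def box (n : ℕ) (b : List Name × List Name) : Set (Phase n) :=
  {x | ∀ (i : Fin n) (j : Fin 3), (ent b.1 (3 * i + j) < x.1 i j ∧ x.1 i j < ent b.2 (3 * i + j)) ∧
    (ent b.1 (3 * n + 3 * i + j) < x.2 i j ∧ x.2 i j < ent b.2 (3 * n + 3 * i + j))}

/-- An open subset `V` of the phase space is computable: there are a computable sequence `F j` of
open boxes with rational corners and a computable function `N` such that `V` is the union of the
boxes `F j` and the boxes `F j` with `j ≥ N r` do not meet the cube where all coordinates have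
absolute value at most `r`. (So in each bounded region `V` is a finite union of boxes with rational
corners that can be computed exactly.) -/
def ComputableOpen {n : ℕ} (V : Set (Phase n)) : Prop :=
  ∃ (F : ℕ → List Name × List Name) (N : ℕ → ℕ), Computable F ∧ Computable N ∧
    V = ⋃ j, box n (F j) ∧
    ∀ r j, N r ≤ j → ∀ x ∈ box n (F j), ∃ (i : Fin n) (k : Fin 3),
      (r : ℝ) < |x.1 i k| ∨ (r : ℝ) < |x.2 i k|

/-- Computable real numbers. -/
def ComputableReal (x : ℝ) : Prop :=
  ∃ g : ℕ → Name, Computable g ∧ ∀ m, |x - val (g m)| ≤ 1 / 2 ^ m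

end Pool.Agent.W754.NB
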